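import Pool.Agent.H14.AVS.S2

/-!
# Board `avs`: auxiliary lemmas for DS1 and DS2
-/

set_option autoImplicit false

namespace Pool.AVS.DS

open Polynomial Matrix Pool.AVR Pool.AVS

variable {L : Type} [Field L] {O : ValuationSubring L} {π : L}

theorem P_add {x y : L} (hx : x / π ∈ O) (hy : y / π ∈ O) : (x + y) / π ∈ O := by
  rw [add_div]; exact O.add_mem _ _ hx hy

theorem P_sub {x y : L} (hx : x / π ∈ O) (hy : y / π ∈ O) : (x - y) / π ∈ O := by
  rw [sub_div]; exact O.sub_mem hx hy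

theorem P_neg {x : L} (hx : x / π ∈ O) : (-x) / π ∈ O := by
  rw [neg_div]; exact O.neg_mem _ hx

theorem P_mul {x y : L} (hx : x ∈ O) (hy : y / π ∈ O) : (x * y) / π ∈ O := by
  rw [mul_div_assoc]; exact O.mul_mem _ _ hx hy

theorem P_mul' {x y : L} (hx : x / π ∈ O) (hy : y ∈ O) : (x * y) / π ∈ O := by
  rw [mul_comm]; exact P_mul hy hx

theorem P_zero : (0 : L) / π ∈ O := by
  rw [zero_div]; exact O.zero_mem

theorem P_mem (H : Loc L O π) {x : L} (hx : x / π ∈ O) : x ∈ O := by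
  have := O.mul_mem _ _ H.pi_mem hx
  rwa [mul_div_cancel₀ _ H.pi_ne] at this

theorem not_P_one (H : Loc L O π) : ¬ (1 : L) / π ∈ O := by
  intro h
  have := (H.unif 1 O.one_mem one_ne_zero).2 h
  rw [inv_one] at this
  exact this O.one_mem

theorem not_P_unit (H : Loc L O π) {x : L} (hx : x⁻¹ ∈ O) (h0 : x ≠ 0) : ¬ x / π ∈ O := by
  intro h
  have := P_mul (π := π) hx h
  rw [inv_mul_cancel₀ h0] at this
  exact not_P_one H this

/-- units of `O` -/
theorem unit_of_not_P (H : Loc L O π) {x : L} (hx : x ∈ O) (h : ¬ x / π ∈ O) :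
    UI (O : Set L) x := by
  have h0 : x ≠ 0 := by
    rintro rfl; exact h P_zero
  refine ⟨h0, hx, ?_⟩
  by_contra h1
  exact h ((H.unif x hx h0).1 h1)

theorem P_of_unit_mul (H : Loc L O π) {u x : L} (hu : UI (O : Set L) u) (h : (u * x) / π ∈ O) :
    x / π ∈ O := by
  have := P_mul (π := π) (show u⁻¹ ∈ O from hu.2.2) h
  rwa [← mul_assoc, inv_mul_cancel₀ hu.1, one_mul] at this

theorem P_sq (H : Loc L O π) {x : L} (hx : x ∈ O) (h : x ^ 2 / π ∈ O) : x / π ∈ O := by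
  by_contra h1
  have h2 := unit_of_not_P H hx h1
  rw [pow_two] at h
  exact h1 (P_of_unit_mul H h2 h)

theorem mem_of_sq {x : L} (h : x ^ 2 ∈ O) : x ∈ O := by
  rcases O.mem_or_inv_mem x with h1 | h1
  · exact h1
  · by_cases h0 : x = 0
    · rw [h0]; exact O.zero_mem
    · have := O.mul_mem _ _ h h1
      rwa [pow_two, mul_assoc, mul_inv_cancel₀ h0, mul_one] at this

theorem unit_mul {x y : L} (hx : UI (O : Set L) x) (hy : UI (O : Set L) y) :
    UI (O : Set L) (x * y) := by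
  refine ⟨mul_ne_zero hx.1 hy.1, O.mul_mem _ _ hx.2.1 hy.2.1, ?_⟩
  rw [mul_inv]
  exact O.mul_mem _ _ hx.2.2 hy.2.2

theorem unit_inv {x : L} (hx : UI (O : Set L) x) : UI (O : Set L) x⁻¹ := by
  refine ⟨inv_ne_zero hx.1, hx.2.2, ?_⟩
  rw [inv_inv]; exact hx.2.1

/-- perturbation of a unit -/
theorem unit_add_P (H : Loc L O π) {x y : L} (hx : UI (O : Set L) x) (h : (y - x) / π ∈ O) :
    UI (O : Set L) y := by
  have hy : y ∈ O := by
    have := O.add_mem _ _ (P_mem H h) hx.2.1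
    rwa [sub_add_cancel] at this
  refine unit_of_not_P H hy fun h1 => ?_
  have := P_sub h1 h
  rw [sub_sub_cancel] at this
  exact not_P_unit H hx.2.2 hx.1 this

theorem bil_conj (B g : Matrix (Fin 3) (Fin 3) L) (u v : Fin 3 → L) :
    bil (gᵀ * B * g) u v = bil B (g *ᵥ u) (g *ᵥ v) := by
  unfold bil
  rw [← Matrix.mulVec_mulVec, ← Matrix.mulVec_mulVec, Matrix.dotProduct_mulVec,
    Matrix.vecMul_transpose]

theorem bil_smul_left (B : Matrix (Fin 3) (Fin 3) L) (c : L) (u v : Fin 3 → L) :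
    bil B (c • u) v = c * bil B u v := by
  unfold bil
  rw [smul_dotProduct, smul_eq_mul]

theorem bil_smul_right (B : Matrix (Fin 3) (Fin 3) L) (c : L) (u v : Fin 3 → L) :
    bil B u (c • v) = c * bil B u v := by
  unfold bil
  rw [Matrix.mulVec_smul, dotProduct_smul, smul_eq_mul]

theorem AA_sq : AA L * AA L = 1 := by
  ext i j
  fin_cases i <;> fin_cases j <;> simp [AA, Matrix.mul_apply, Fin.sum_univ_three]

theorem AA_tr : (AA L)ᵀ = AA L := by
  ext i j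
  fin_cases i <;> fin_cases j <;> rfl

theorem MI_AA : MI (O : Set L) (AA L) := by
  intro i j
  fin_cases i <;> fin_cases j <;> simp [AA, O.zero_mem, O.one_mem]

theorem MI_mul {g h : Matrix (Fin 3) (Fin 3) L} (hg : MI (O : Set L) g) (hh : MI (O : Set L) h) :
    MI (O : Set L) (g * h) := by
  intro i j
  rw [Matrix.mul_apply, Fin.sum_univ_three]
  exact O.add_mem _ _ (O.add_mem _ _ (O.mul_mem _ _ (hg _ _) (hh _ _))
    (O.mul_mem _ _ (hg _ _) (hh _ _))) (O.mul_mem _ _ (hg _ _) (hh _ _))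

theorem MI_tr {g : Matrix (Fin 3) (Fin 3) L} (hg : MI (O : Set L) g) : MI (O : Set L) gᵀ :=
  fun i j => hg j i

/-- normal form of a primitive isotropic vector -/
theorem normal (hT : TRNStmt) (H : Loc L O π) {B : Matrix (Fin 3) (Fin 3) L}
    {z₁ : Fin 3 → L} (hB : Bᵀ = B) (hBO : MI (O : Set L) B) (hz : ∀ i, z₁ i ∈ O)
    (hp : ∃ i, z₁ i / π ∉ O) (h0 : bil (AA L) z₁ z₁ = 0) :
    ∃ (B' g gi : Matrix (Fin 3) (Fin 3) L) (c : L), B'ᵀ = B' ∧ MI (O : Set L) B' ∧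
      MI (O : Set L) g ∧ MI (O : Set L) gi ∧ g * gi = 1 ∧ gi * g = 1 ∧ UI (O : Set L) c ∧
      z₁ = c • (g *ᵥ ![1, 0, 0]) ∧ (∀ u v, bil B (g *ᵥ u) (g *ᵥ v) = bil B' u v) ∧
      (∀ u v, bil (AA L) (g *ᵥ u) (g *ᵥ v) = bil (AA L) u v) ∧
      (∀ u v, bil (B * AA L * B) (g *ᵥ u) (g *ᵥ v) = bil (B' * AA L * B') u v) ∧
      (B' 0 0 / π ∈ O → B' 0 1 / π ∈ O →
        ∃ μ ∈ (O : Set L), ∀ i, ((B *ᵥ z₁) i - μ * (AA L *ᵥ z₁) i) / π ∈ O) := by
  obtain ⟨g, t, hg, hd, hgO, ht, hgz⟩ := hT L O π H z₁ hz hp h0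
  have hig : (AA L * gᵀ * AA L) * g = 1 := by
    rw [Matrix.mul_assoc, Matrix.mul_assoc, ← Matrix.mul_assoc gᵀ, hg, AA_sq]
  have hgi : g * (AA L * gᵀ * AA L) = 1 := mul_eq_one_comm.mp hig
  have hgiO : MI (O : Set L) (AA L * gᵀ * AA L) := MI_mul (MI_mul MI_AA (MI_tr hgO)) MI_AA
  set gi := AA L * gᵀ * AA L with hgi_def
  have hz1 : z₁ = t⁻¹ • (g *ᵥ ![1, 0, 0]) := by
    rw [hgz, smul_smul, inv_mul_cancel₀ ht.1, one_smul]
  refine ⟨gᵀ * B * g, g, gi, t⁻¹, ?_, MI_mul (MI_mul (MI_tr hgO) hBO) hgO, hgO, hgiO, hgi, hig,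
    unit_inv ht, hz1, fun u v => (bil_conj B g u v).symm, fun u v => ?_, fun u v => ?_, ?_⟩
  · rw [Matrix.transpose_mul, Matrix.transpose_mul, Matrix.transpose_transpose, hB,
      Matrix.mul_assoc]
  · rw [← bil_conj, hg]
  · rw [← bil_conj]
    congr 1
    have h3 : g * AA L * gᵀ = AA L := by
      have h4 : g * (AA L * gᵀ * AA L) * AA L = AA L := by rw [hgi, one_mul]
      calc g * AA L * gᵀ = g * (AA L * gᵀ * (AA L * AA L)) := by
            rw [AA_sq, mul_one, Matrix.mul_assoc]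
        _ = g * (AA L * gᵀ * AA L) * AA L := by simp only [Matrix.mul_assoc]
        _ = AA L := h4
    calc gᵀ * (B * AA L * B) * g = gᵀ * (B * (g * AA L * gᵀ) * B) * g := by rw [h3]
      _ = gᵀ * B * g * AA L * (gᵀ * B * g) := by simp only [Matrix.mul_assoc]
  · intro h00 h01
    refine ⟨(gᵀ * B * g) 0 2, MI_mul (MI_mul (MI_tr hgO) hBO) hgO 0 2, ?_⟩
    set μ := (gᵀ * B * g) 0 2 with hμ
    have hsym : (gᵀ * B * g)ᵀ = gᵀ * B * g := by
      rw [Matrix.transpose_mul, Matrix.transpose_mul, Matrix.transpose_transpose, hB,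
        Matrix.mul_assoc]
    have h10 : (gᵀ * B * g) 1 0 = (gᵀ * B * g) 0 1 := congrFun (congrFun hsym 0) 1
    have h20 : (gᵀ * B * g) 2 0 = (gᵀ * B * g) 0 2 := congrFun (congrFun hsym 0) 2
    -- r = (B' - μ A) e0
    have hr : ∀ i, (((gᵀ * B * g) - μ • AA L) *ᵥ ![1, 0, 0]) i / π ∈ O := by
      intro i
      fin_cases i
      · have : (((gᵀ * B * g) - μ • AA L) *ᵥ ![1, 0, 0]) 0 = (gᵀ * B * g) 0 0 := by
          simp [Matrix.mulVec, dotProduct, Fin.sum_univ_three, AA]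
        show (((gᵀ * B * g) - μ • AA L) *ᵥ ![1, 0, 0]) 0 / π ∈ O
        rw [this]; exact h00
      · have : (((gᵀ * B * g) - μ • AA L) *ᵥ ![1, 0, 0]) 1 = (gᵀ * B * g) 0 1 := by
          rw [← h10]
          simp [Matrix.mulVec, dotProduct, Fin.sum_univ_three, AA]
        show (((gᵀ * B * g) - μ • AA L) *ᵥ ![1, 0, 0]) 1 / π ∈ O
        rw [this]; exact h01
      · have : (((gᵀ * B * g) - μ • AA L) *ᵥ ![1, 0, 0]) 2 = 0 := by
          have h5 : (((gᵀ * B * g) - μ • AA L) *ᵥ ![1, 0, 0]) 2 = (gᵀ * B * g) 2 0 - μ := by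
            simp [Matrix.mulVec, dotProduct, Fin.sum_univ_three, AA]
          rw [h5, h20, sub_self]
        show (((gᵀ * B * g) - μ • AA L) *ᵥ ![1, 0, 0]) 2 / π ∈ O
        rw [this]; exact P_zero
    have hs : ∀ i, (B *ᵥ z₁) i - μ * (AA L *ᵥ z₁) i =
        t⁻¹ * (giᵀ *ᵥ (((gᵀ * B * g) - μ • AA L) *ᵥ ![1, 0, 0])) i := by
      intro i
      have h6 : giᵀ * ((gᵀ * B * g) - μ • AA L) = (B - μ • AA L) * g := by
        have h7 : giᵀ * gᵀ = 1 := by rw [← Matrix.transpose_mul, hgi, Matrix.transpose_one]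
        have h8 : (gᵀ * B * g) - μ • AA L = gᵀ * ((B - μ • AA L) * g) := by
          rw [Matrix.sub_mul, Matrix.mul_sub, ← Matrix.mul_assoc, Matrix.smul_mul,
            Matrix.mul_smul, ← Matrix.mul_assoc, hg]
        rw [h8, ← Matrix.mul_assoc, h7, one_mul]
      rw [Matrix.mulVec_mulVec, h6, ← Matrix.mulVec_mulVec, hz1, Matrix.mulVec_smul,
        Matrix.mulVec_smul, Matrix.sub_mulVec, Matrix.smul_mulVec]
      simp only [Pi.smul_apply, Pi.sub_apply, smul_eq_mul]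
      ring
    intro i
    rw [hs i]
    refine P_mul (show t⁻¹ ∈ O from ht.2.2) ?_
    rw [Matrix.mulVec, dotProduct, Fin.sum_univ_three]
    exact P_add (P_add (P_mul (hgiO 0 i) (hr 0)) (P_mul (hgiO 1 i) (hr 1)))
      (P_mul (hgiO 2 i) (hr 2))

end Pool.AVS.DS
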