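import Pool.Agent.H65.AVS.Loc

/-!
# Board `avs`, module DS1: two points with the same smooth reduction
-/

set_option autoImplicit false

namespace Pool.AVS.DS

open Polynomial Matrix Pool.AVR Pool.AVS

variable {L : Type} [Field L] {O : ValuationSubring L} {π : L}

theorem bil_expand (B : Matrix (Fin 3) (Fin 3) L) (hB : Bᵀ = B) (u v : Fin 3 → L) :
    bil B u v = B 0 0 * u 0 * v 0 + B 1 1 * u 1 * v 1 + B 2 2 * u 2 * v 2 +
      B 0 1 * (u 0 * v 1 + u 1 * v 0) + B 0 2 * (u 0 * v 2 + u 2 * v 0) +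
      B 1 2 * (u 1 * v 2 + u 2 * v 1) := by
  have h10 : B 1 0 = B 0 1 := congrFun (congrFun hB 0) 1
  have h20 : B 2 0 = B 0 2 := congrFun (congrFun hB 0) 2
  have h21 : B 2 1 = B 1 2 := congrFun (congrFun hB 1) 2
  simp only [bil, Matrix.mulVec, dotProduct, Fin.sum_univ_three]
  rw [h10, h20, h21]
  ring

theorem bilA_expand (u v : Fin 3 → L) :
    bil (AA L) u v = u 0 * v 2 + u 1 * v 1 + u 2 * v 0 := by
  simp only [bil, Matrix.mulVec, dotProduct, Fin.sum_univ_three, AA]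
  simp

theorem bilBAB_e0 (B : Matrix (Fin 3) (Fin 3) L) (hB : Bᵀ = B) :
    bil (B * AA L * B) ![1, 0, 0] ![1, 0, 0] = 2 * B 0 0 * B 0 2 + B 0 1 ^ 2 := by
  have h10 : B 1 0 = B 0 1 := congrFun (congrFun hB 0) 1
  have h20 : B 2 0 = B 0 2 := congrFun (congrFun hB 0) 2
  simp only [bil, Matrix.mulVec, dotProduct, Fin.sum_univ_three, Matrix.mul_apply, AA]
  simp
  rw [h10, h20]
  ring

/-- The data after normalisation. -/
structure Nor (L : Type) [Field L] (O : ValuationSubring L) (π : L)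
    (B : Matrix (Fin 3) (Fin 3) L) (z₁ z₂ : Fin 3 → L) (w₁ w₂ : L)
    (C : Matrix (Fin 3) (Fin 3) L) (c q e V W : L) : Prop where
  sym : Cᵀ = C
  int : MI (O : Set L) C
  uc : UI (O : Set L) c
  uq : UI (O : Set L) q
  he : e / π ∈ O
  hw1 : w₁ = c * V
  hw2 : w₂ = q * W
  hA : bil (AA L) z₁ z₂ = -(c * q * e ^ 2) / 2
  hBz : bil B z₁ z₂ = c * q * (C 0 0 + e * C 0 1 - e ^ 2 / 2 * C 0 2)
  hV : V ^ 2 = -C 0 0
  hW : W ^ 2 = -(C 0 0 + 2 * e * C 0 1 + e ^ 2 * (C 1 1 - C 0 2) - e ^ 3 * C 1 2 +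
    e ^ 4 * C 2 2 / 4)
  hBAB : bil (B * AA L * B) z₁ z₁ = c ^ 2 * (2 * C 0 0 * C 0 2 + C 0 1 ^ 2)
  smo : C 0 0 / π ∈ O → C 0 1 / π ∈ O →
    ∃ μ ∈ (O : Set L), ∀ i, ((B *ᵥ z₁) i - μ * (AA L *ᵥ z₁) i) / π ∈ O
  qv : ∀ v : L, z₂ = v • z₁ → q = v * c

theorem two_unit (H : Loc L O π) : UI (O : Set L) (2 : L) :=
  ⟨H.two.1, by
    have := O.add_mem _ _ O.one_mem O.one_mem
    rw [show (1 : L) + 1 = 2 by norm_num] at this
    exact this, H.two.2⟩

/-- normalisation, the second point being close to the first -/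
theorem nor_core (H : Loc L O π) {B C g gi : Matrix (Fin 3) (Fin 3) L}
    {z₁ z₂ : Fin 3 → L} {w₁ w₂ c : L} (h1 : Cov B z₁ w₁) (h2 : Cov B z₂ w₂)
    (hCs : Cᵀ = C) (hCO : MI (O : Set L) C) (hggi : g * gi = 1) (hgig : gi * g = 1)
    (hc : UI (O : Set L) c) (hz1 : z₁ = c • (g *ᵥ ![1, 0, 0]))
    (hBil : ∀ u v, bil B (g *ᵥ u) (g *ᵥ v) = bil C u v)
    (hAil : ∀ u v, bil (AA L) (g *ᵥ u) (g *ᵥ v) = bil (AA L) u v)
    (hBABil : ∀ u v, bil (B * AA L * B) (g *ᵥ u) (g *ᵥ v) = bil (C * AA L * C) u v)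
    (hsm : C 0 0 / π ∈ O → C 0 1 / π ∈ O →
        ∃ μ ∈ (O : Set L), ∀ i, ((B *ᵥ z₁) i - μ * (AA L *ᵥ z₁) i) / π ∈ O)
    (hq : UI (O : Set L) ((gi *ᵥ z₂) 0)) (hp1 : (gi *ᵥ z₂) 1 / π ∈ O) :
    ∃ (e V W : L), Nor L O π B z₁ z₂ w₁ w₂ C c ((gi *ᵥ z₂) 0) e V W ∧
      (gi *ᵥ z₂) 1 = (gi *ᵥ z₂) 0 * e ∧ (gi *ᵥ z₂) 2 = -((gi *ᵥ z₂) 0 * e ^ 2) / 2 := by
  have h2u := two_unit H
  have h20 : (2 : L) ≠ 0 := h2u.1
  set p : Fin 3 → L := gi *ᵥ z₂ with hp_def
  have hgp : g *ᵥ p = z₂ := by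
    rw [hp_def, Matrix.mulVec_mulVec, hggi, Matrix.one_mulVec]
  have hgz : gi *ᵥ z₁ = c • ![1, 0, 0] := by
    rw [hz1, Matrix.mulVec_smul, Matrix.mulVec_mulVec, hgig, Matrix.one_mulVec]
  have hiso : 2 * p 0 * p 2 + p 1 ^ 2 = 0 := by
    have := h2.2.1
    rw [← hgp, hAil, bilA_expand] at this
    linear_combination this
  have hq0 := hq.1
  have hc0 := hc.1
  set e := p 1 / p 0 with he_def
  have he1 : p 1 = p 0 * e := by rw [he_def]; field_simp
  have he2 : p 2 = -(p 0 * e ^ 2) / 2 := by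
    have : p 0 * (2 * p 2 + p 0 * e ^ 2) = 0 := by
      rw [he1] at hiso
      linear_combination hiso
    rcases mul_eq_zero.mp this with h | h
    · exact absurd h hq0
    · field_simp
      linear_combination h
  have heπ : e / π ∈ O := by
    rw [he_def, div_eq_mul_inv (p 1)]
    exact P_mul' hp1 hq.2.2
  have hz2 : z₂ = g *ᵥ p := hgp.symm
  refine ⟨e, w₁ / c, w₂ / p 0, ⟨hCs, hCO, hc, hq, heπ, ?_, ?_, ?_, ?_, ?_, ?_, ?_, hsm,
    ?_⟩, he1, he2⟩
  · field_simp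
  · field_simp
  · rw [hz2, hz1, bil_smul_left, hAil, bilA_expand, he2]
    simp
    ring
  · rw [hz2, hz1, bil_smul_left, hBil, bil_expand C hCs, he1, he2]
    simp
    ring
  · have h3 := h1.2.2
    rw [hz1, bil_smul_left, bil_smul_right, hBil, bil_expand C hCs] at h3
    simp at h3
    rw [div_pow, h3]
    field_simp
  · have h3 := h2.2.2
    rw [hz2, hBil, bil_expand C hCs, he1, he2] at h3
    rw [div_pow, h3]
    have h40 : (4 : L) ≠ 0 := by
      rw [show (4 : L) = 2 * 2 by norm_num]; exact mul_ne_zero h20 h20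
    field_simp
    ring
  · rw [hz1, bil_smul_left, bil_smul_right, hBABil, bilBAB_e0 C hCs]
    ring
  · intro v hv
    have h3 : p = v • (c • (![1, 0, 0] : Fin 3 → L)) := by
      rw [hp_def, hv, Matrix.mulVec_smul, hgz]
    rw [h3]
    simp

/-- normalisation when the second point has the same reduction -/
theorem nor_of (hT : TRNStmt) (H : Loc L O π) {B : Matrix (Fin 3) (Fin 3) L}
    {z₁ z₂ : Fin 3 → L} {w₁ w₂ : L} (hB : Bᵀ = B) (hBO : MI (O : Set L) B)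
    (hz : ∀ i, z₁ i ∈ O) (hp : ∃ i, z₁ i / π ∉ O) (h1 : Cov B z₁ w₁) (h2 : Cov B z₂ w₂) {t : L}
    (ht : UI (O : Set L) t) (hred : ∀ i, (z₂ i - t * z₁ i) / π ∈ O) :
    ∃ (C : Matrix (Fin 3) (Fin 3) L) (c q e V W : L), Nor L O π B z₁ z₂ w₁ w₂ C c q e V W ∧
      (q - t * c) / π ∈ O := by
  obtain ⟨C, g, gi, c, hCs, hCO, hgO, hgiO, hggi, hgig, hc, hz1, hBil, hAil, hBABil, hsm⟩ :=
    normal hT H hB hBO hz hp h1.2.1
  have hgz : gi *ᵥ z₁ = c • ![1, 0, 0] := by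
    rw [hz1, Matrix.mulVec_smul, Matrix.mulVec_mulVec, hgig, Matrix.one_mulVec]
  have hpr : ∀ i, ((gi *ᵥ z₂) i - t * (c • (![1, 0, 0] : Fin 3 → L)) i) / π ∈ O := by
    intro i
    have h3 : (gi *ᵥ z₂) i - t * (c • (![1, 0, 0] : Fin 3 → L)) i =
        (gi *ᵥ (z₂ - t • z₁)) i := by
      rw [Matrix.mulVec_sub, Matrix.mulVec_smul, hgz]
      rfl
    rw [h3, Matrix.mulVec, dotProduct, Fin.sum_univ_three]
    exact P_add (P_add (P_mul (hgiO i 0) (hred 0)) (P_mul (hgiO i 1) (hred 1)))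
      (P_mul (hgiO i 2) (hred 2))
  have hp0 : ((gi *ᵥ z₂) 0 - t * c) / π ∈ O := by
    have := hpr 0
    simpa using this
  have hp1 : (gi *ᵥ z₂) 1 / π ∈ O := by
    have := hpr 1
    simpa using this
  have hq : UI (O : Set L) ((gi *ᵥ z₂) 0) := unit_add_P H (unit_mul ht hc) hp0
  obtain ⟨e, V, W, N, -, -⟩ := nor_core H h1 h2 hCs hCO hggi hgig hc hz1 hBil hAil hBABil hsm hq hp1
  exact ⟨C, c, _, e, V, W, N, hp0⟩

end Pool.AVS.DS

namespace Pool.AVS

open Polynomial Matrix Pool.AVR DS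

theorem ds1_thm (hTRN : TRNStmt) : DS1Stmt := by
  intro L _ O π H B z₁ z₂ w₁ w₂ t hB hBO h1 h2 hS hz2 ht hred hw
  obtain ⟨hz1, hw1, hp, -, -, hns⟩ := hS
  obtain ⟨C, c, q, e, V, W, N, hqt⟩ := nor_of hTRN H hB hBO hz1 hp h1 h2 ht hred
  obtain ⟨sym, int, uc, uq, he, hw1', hw2', hA, hBz, hV, hW, hBAB, smo, qv⟩ := N
  have h2u := two_unit H
  have hc0 := uc.1
  have hq0 := uq.1
  have hVO : V ∈ O := by
    have : V = c⁻¹ * w₁ := by rw [hw1']; field_simp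
    rw [this]
    exact O.mul_mem _ _ uc.2.2 hw1
  -- key: V is not in π O or C 0 1 is not
  have key : ¬ (V / π ∈ O ∧ C 0 1 / π ∈ O) := by
    rintro ⟨hV1, hC1⟩
    apply hns
    refine ⟨?_, smo ?_ hC1⟩
    · rw [hw1']; exact P_mul uc.2.1 hV1
    · have : C 0 0 = -(V * V) := by linear_combination hV
      rw [this]
      exact P_neg (P_mul hVO hV1)
  have hd : (V - W) / π ∈ O := by
    have h3 : q * (V - W) = -((w₂ - t * w₁) - (q - t * c) * V) := by
      rw [hw1', hw2']; ring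
    refine P_of_unit_mul H uq ?_
    rw [h3]
    exact P_neg (P_sub hw (P_mul' hqt hVO))
  have heO : e ∈ O := P_mem H he
  have h4 : ((4 : L))⁻¹ ∈ O := by
    have := O.mul_mem _ _ h2u.2.2 h2u.2.2
    rw [← mul_inv] at this
    rwa [show (4 : L) = 2 * 2 by norm_num]
  refine ⟨fun x hne hx hxO => ?_, fun v hv hwv hw0 hxO => ?_⟩
  · have he0 : e ≠ 0 := by
      rintro rfl
      apply hne
      rw [hA]; ring
    have h3 : (V + W) ^ 2 = e ^ 2 * (x - (C 1 1 - e * C 1 2 + e ^ 2 * C 2 2 / 4)) := by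
      rw [hA, hBz, hw1', hw2'] at hx
      have h5 : c * q * (x * (-(e ^ 2) / 2)) =
          c * q * (C 0 0 + e * C 0 1 - e ^ 2 / 2 * C 0 2 - V * W) := by
        linear_combination hx
      have h6 := mul_left_cancel₀ (mul_ne_zero hc0 hq0) h5
      have h7 : e ^ 2 * x = -2 * C 0 0 - 2 * e * C 0 1 + e ^ 2 * C 0 2 + 2 * V * W := by
        have h71 : e ^ 2 * x = -2 * (x * (-(e ^ 2) / 2)) := by
          have := h2u.1
          field_simp
        rw [h71, h6]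
        have := h2u.1
        field_simp
        ring
      linear_combination hV + hW - h7
    have h5 : ((V + W) / e) ^ 2 = x - (C 1 1 - e * C 1 2 + e ^ 2 * C 2 2 / 4) := by
      rw [div_pow, h3]; field_simp
    have h6 : (V + W) / e ∈ O := by
      apply mem_of_sq
      rw [h5]
      refine O.sub_mem hxO (O.add_mem _ _ (O.sub_mem (int 1 1) (O.mul_mem _ _ heO (int 1 2))) ?_)
      rw [div_eq_mul_inv]
      exact O.mul_mem _ _ (O.mul_mem _ _ (pow_mem heO 2) (int 2 2)) h4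
    set y := (V + W) / e with hy
    have hye : V + W = e * y := by rw [hy]; field_simp
    have hs : (V + W) / π ∈ O := by
      rw [hye]; exact P_mul' he h6
    have hV1 : V / π ∈ O := by
      refine P_of_unit_mul H h2u ?_
      have : 2 * V = (V + W) + (V - W) := by ring
      rw [this]
      exact P_add hs hd
    refine key ⟨hV1, P_of_unit_mul H h2u ?_⟩
    have h7 : e * (2 * C 0 1) = e * ((V - W) * y - e * (C 1 1 - C 0 2) + e * (e * C 1 2) -
        e * (e ^ 2 * C 2 2 * 4⁻¹)) := by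
      have h8 : e * ((V - W) * y) = V ^ 2 - W ^ 2 := by
        rw [mul_left_comm, ← hye]; ring
      linear_combination -h8 - hV + hW
    rw [mul_left_cancel₀ he0 h7]
    refine P_sub (P_add (P_sub (P_mul' hd h6) (P_mul' he (O.sub_mem (int 1 1) (int 0 2))))
      (P_mul' he (O.mul_mem _ _ heO (int 1 2)))) (P_mul' he ?_)
    exact O.mul_mem _ _ (O.mul_mem _ _ (pow_mem heO 2) (int 2 2)) h4
  · have hqv := qv v hv
    have hWV : W = -V := by
      have : q * W = q * (-V) := by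
        rw [← hw2', hwv, hw1', hqv]; ring
      exact mul_left_cancel₀ hq0 this
    have hV1 : V / π ∈ O := by
      refine P_of_unit_mul H h2u ?_
      have : 2 * V = V - W := by rw [hWV]; ring
      rw [this]; exact hd
    have hV0 : V ≠ 0 := by
      rintro rfl
      apply hw0
      rw [hw1', mul_zero]
    refine key ⟨hV1, P_sq H (int 0 1) ?_⟩
    have h3 : (2 * C 0 0 * C 0 2 + C 0 1 ^ 2) / V ^ 2 ∈ O := by
      have : bil (B * AA L * B) z₁ z₁ / w₁ ^ 2 = (2 * C 0 0 * C 0 2 + C 0 1 ^ 2) / V ^ 2 := by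
        rw [hBAB, hw1']; field_simp
      rwa [this] at hxO
    set y := (2 * C 0 0 * C 0 2 + C 0 1 ^ 2) / V ^ 2 with hy
    have h4' : C 0 1 ^ 2 = V * (V * (y + 2 * C 0 2)) := by
      have : V ^ 2 * y = 2 * C 0 0 * C 0 2 + C 0 1 ^ 2 := by rw [hy]; field_simp
      linear_combination -this - 2 * C 0 2 * hV
    rw [h4']
    exact P_mul' hV1 (O.mul_mem _ _ hVO (O.add_mem _ _ h3 (O.mul_mem _ _ h2u.2.1 (int 0 2))))

end Pool.AVS
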