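import Pool.Agent.H14.AVS.S1

/-!
# Board `avs`, module SYH: the Gram matrices are symmetric
-/

set_option autoImplicit false

namespace Pool.AVS

open Polynomial Matrix Pool.AVR

theorem syh_thm : SYHStmt := by
  intro K _ a b c h G B hR
  obtain ⟨e, h1, h2⟩ := hR
  constructor
  · ext i j
    rw [Matrix.transpose_apply, ← h1 i j, ← h1 j i, mul_comm (e j) (e i)]
  · ext i j
    rw [Matrix.transpose_apply, ← h2 i j, ← h2 j i, mul_comm (e j) (e i)]

end Pool.AVS
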