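import Pool.Agent.H65.AVS.DS1

/-!
# Board `avs`, module DS2: nonintegral difference implies the same reduction
-/

set_option autoImplicit false

namespace Pool.AVS

open Polynomial Matrix Pool.AVR DS

theorem ds2_thm (hTRN : TRNStmt) : DS2Stmt := by
  intro L _ O π H B z₁ z₂ w₁ w₂ x hB hBO h1 h2 hz1 hp hz2 hp2 hA0 hx hxO
  have h2u := two_unit H
  have h20 : (2 : L) ≠ 0 := h2u.1
  have bilO : ∀ u v : Fin 3 → L, (∀ i, u i ∈ O) → (∀ i, v i ∈ O) → bil B u v ∈ O := by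
    intro u v hu hv
    rw [bil_expand B hB]
    refine O.add_mem _ _ (O.add_mem _ _ (O.add_mem _ _ (O.add_mem _ _ (O.add_mem _ _ ?_ ?_) ?_) ?_)
      ?_) ?_
    · exact O.mul_mem _ _ (O.mul_mem _ _ (hBO _ _) (hu _)) (hv _)
    · exact O.mul_mem _ _ (O.mul_mem _ _ (hBO _ _) (hu _)) (hv _)
    · exact O.mul_mem _ _ (O.mul_mem _ _ (hBO _ _) (hu _)) (hv _)
    · exact O.mul_mem _ _ (hBO _ _) (O.add_mem _ _ (O.mul_mem _ _ (hu _) (hv _))
        (O.mul_mem _ _ (hu _) (hv _)))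
    · exact O.mul_mem _ _ (hBO _ _) (O.add_mem _ _ (O.mul_mem _ _ (hu _) (hv _))
        (O.mul_mem _ _ (hu _) (hv _)))
    · exact O.mul_mem _ _ (hBO _ _) (O.add_mem _ _ (O.mul_mem _ _ (hu _) (hv _))
        (O.mul_mem _ _ (hu _) (hv _)))
  have hw1 : w₁ ∈ O := by
    apply mem_of_sq
    rw [h1.2.2]
    exact O.neg_mem _ (bilO _ _ hz1 hz1)
  have hw2 : w₂ ∈ O := by
    apply mem_of_sq
    rw [h2.2.2]
    exact O.neg_mem _ (bilO _ _ hz2 hz2)
  -- the inverse of a nonintegral element is divisible by `π`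
  have inv_of : ∀ y : L, y ∉ O → y⁻¹ / π ∈ O := by
    intro y hy
    have h0 : y ≠ 0 := by
      rintro rfl; exact hy O.zero_mem
    have h3 : y⁻¹ ∈ O := (O.mem_or_inv_mem y).resolve_left hy
    exact (H.unif y⁻¹ h3 (inv_ne_zero h0)).1 (by rwa [inv_inv])
  have hx0 : x ≠ 0 := by
    rintro rfl; exact hxO O.zero_mem
  have hAπ : bil (AA L) z₁ z₂ / π ∈ O := by
    have h3 : bil (AA L) z₁ z₂ = x⁻¹ * (bil B z₁ z₂ - w₁ * w₂) := by
      rw [← hx, ← mul_assoc, inv_mul_cancel₀ hx0, one_mul]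
    rw [h3]
    exact P_mul' (inv_of x hxO) (O.sub_mem (bilO _ _ hz1 hz2) (O.mul_mem _ _ hw1 hw2))
  obtain ⟨C, g, gi, c, hCs, hCO, hgO, hgiO, hggi, hgig, hc, hz1', hBil, hAil, hBABil, hsm⟩ :=
    normal hTRN H hB hBO hz1 hp h1.2.1
  have hgp : g *ᵥ (gi *ᵥ z₂) = z₂ := by
    rw [Matrix.mulVec_mulVec, hggi, Matrix.one_mulVec]
  have hpO : ∀ i, (gi *ᵥ z₂) i ∈ O := by
    intro i
    rw [Matrix.mulVec, dotProduct, Fin.sum_univ_three]
    exact O.add_mem _ _ (O.add_mem _ _ (O.mul_mem _ _ (hgiO _ _) (hz2 _))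
      (O.mul_mem _ _ (hgiO _ _) (hz2 _))) (O.mul_mem _ _ (hgiO _ _) (hz2 _))
  have hgπ : ∀ v : Fin 3 → L, (∀ i, v i / π ∈ O) → ∀ i, (g *ᵥ v) i / π ∈ O := by
    intro v hv i
    rw [Matrix.mulVec, dotProduct, Fin.sum_univ_three]
    exact P_add (P_add (P_mul (hgO i 0) (hv 0)) (P_mul (hgO i 1) (hv 1)))
      (P_mul (hgO i 2) (hv 2))
  have hp2' : (gi *ᵥ z₂) 2 / π ∈ O := by
    refine P_of_unit_mul H hc ?_
    have h3 : bil (AA L) z₁ z₂ = c * (gi *ᵥ z₂) 2 := by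
      conv_lhs => rw [← hgp, hz1']
      rw [bil_smul_left, hAil, bilA_expand]
      simp
    rwa [← h3]
  have hiso : (gi *ᵥ z₂) 1 ^ 2 = -(2 * (gi *ᵥ z₂) 0 * (gi *ᵥ z₂) 2) := by
    have := h2.2.1
    rw [← hgp, hAil, bilA_expand] at this
    linear_combination this
  have hp1' : (gi *ᵥ z₂) 1 / π ∈ O := by
    refine P_sq H (hpO 1) ?_
    rw [hiso]
    exact P_neg (P_mul (O.mul_mem _ _ h2u.2.1 (hpO 0)) hp2')
  have hq : UI (O : Set L) ((gi *ᵥ z₂) 0) := by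
    refine unit_of_not_P H (hpO 0) fun h => ?_
    obtain ⟨i, hi⟩ := hp2
    apply hi
    rw [← hgp]
    refine hgπ _ (fun j => ?_) i
    fin_cases j
    · exact h
    · exact hp1'
    · exact hp2'
  obtain ⟨e, V, W, N, he1, he2⟩ :=
    nor_core H h1 h2 hCs hCO hggi hgig hc hz1' hBil hAil hBABil hsm hq hp1'
  set q := (gi *ᵥ z₂) 0 with hq_def
  obtain ⟨sym, int, uc, uq, he, hw1', hw2', hA, hBz, hV, hW, hBAB, smo, qv⟩ := N
  have hc0 := uc.1
  have hq0 := uq.1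
  have heO : e ∈ O := P_mem H he
  have h4 : ((4 : L))⁻¹ ∈ O := by
    have := O.mul_mem _ _ h2u.2.2 h2u.2.2
    rw [← mul_inv] at this
    rwa [show (4 : L) = 2 * 2 by norm_num]
  have he0 : e ≠ 0 := by
    rintro rfl
    apply hA0
    rw [hA]; ring
  have h3 : (V + W) ^ 2 = e ^ 2 * (x - (C 1 1 - e * C 1 2 + e ^ 2 * C 2 2 / 4)) := by
    rw [hA, hBz, hw1', hw2'] at hx
    have h5 : c * q * (x * (-(e ^ 2) / 2)) =
        c * q * (C 0 0 + e * C 0 1 - e ^ 2 / 2 * C 0 2 - V * W) := by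
      linear_combination hx
    have h6 := mul_left_cancel₀ (mul_ne_zero hc0 hq0) h5
    have h7 : e ^ 2 * x = -2 * C 0 0 - 2 * e * C 0 1 + e ^ 2 * C 0 2 + 2 * V * W := by
      have h71 : e ^ 2 * x = -2 * (x * (-(e ^ 2) / 2)) := by
        field_simp
      rw [h71, h6]
      field_simp
      ring
    linear_combination hV + hW - h7
  have h5 : ((V + W) / e) ^ 2 = x - (C 1 1 - e * C 1 2 + e ^ 2 * C 2 2 / 4) := by
    rw [div_pow, h3]; field_simp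
  have hTO : C 1 1 - e * C 1 2 + e ^ 2 * C 2 2 / 4 ∈ O := by
    refine O.add_mem _ _ (O.sub_mem (int 1 1) (O.mul_mem _ _ heO (int 1 2))) ?_
    rw [div_eq_mul_inv]
    exact O.mul_mem _ _ (O.mul_mem _ _ (pow_mem heO 2) (int 2 2)) h4
  have h6 : (V + W) / e ∉ O := by
    intro h
    apply hxO
    have h7 := O.add_mem _ _ (pow_mem h 2) hTO
    rwa [h5, sub_add_cancel] at h7
  set y := (V + W) / e with hy
  have hy0 : y ≠ 0 := by
    intro h
    rw [h] at h6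
    exact h6 O.zero_mem
  have hye : V + W = e * y := by rw [hy]; field_simp
  have hd : (V - W) / π ∈ O := by
    have h7 : V - W = y⁻¹ * (2 * C 0 1 + e * (C 1 1 - C 0 2) - e ^ 2 * C 1 2 +
        e ^ 3 * C 2 2 * 4⁻¹) := by
      have h8 : e * ((V - W) * y) = e * (2 * C 0 1 + e * (C 1 1 - C 0 2) - e ^ 2 * C 1 2 +
        e ^ 3 * C 2 2 * 4⁻¹) := by
        have h9 : e * ((V - W) * y) = V ^ 2 - W ^ 2 := by
          rw [mul_left_comm, ← hye]; ring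
        rw [h9, hV, hW]
        ring
      rw [← mul_left_cancel₀ he0 h8]
      field_simp
    rw [h7]
    refine P_mul' (inv_of y h6) ?_
    refine O.add_mem _ _ (O.sub_mem (O.add_mem _ _ (O.mul_mem _ _ h2u.2.1 (int 0 1))
      (O.mul_mem _ _ heO (O.sub_mem (int 1 1) (int 0 2))))
      (O.mul_mem _ _ (pow_mem heO 2) (int 1 2)))
      (O.mul_mem _ _ (O.mul_mem _ _ (pow_mem heO 3) (int 2 2)) h4)
  refine ⟨q * c⁻¹, unit_mul uq (unit_inv uc), fun i => ?_, ?_⟩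
  · have h7 : z₂ i - q * c⁻¹ * z₁ i = (g *ᵥ (gi *ᵥ z₂ - q • ![1, 0, 0])) i := by
      rw [Matrix.mulVec_sub, hgp, Matrix.mulVec_smul]
      conv_lhs => rw [hz1']
      simp only [Pi.sub_apply, Pi.smul_apply, smul_eq_mul]
      field_simp
    rw [h7]
    refine hgπ _ (fun j => ?_) i
    fin_cases j
    · show ((gi *ᵥ z₂) 0 - (q • (![1, 0, 0] : Fin 3 → L)) 0) / π ∈ O
      have : (gi *ᵥ z₂) 0 - (q • (![1, 0, 0] : Fin 3 → L)) 0 = 0 := by
        rw [hq_def]; simp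
      rw [this]; exact P_zero
    · show ((gi *ᵥ z₂) 1 - (q • (![1, 0, 0] : Fin 3 → L)) 1) / π ∈ O
      have : (gi *ᵥ z₂) 1 - (q • (![1, 0, 0] : Fin 3 → L)) 1 = (gi *ᵥ z₂) 1 := by
        simp
      rw [this]; exact hp1'
    · show ((gi *ᵥ z₂) 2 - (q • (![1, 0, 0] : Fin 3 → L)) 2) / π ∈ O
      have : (gi *ᵥ z₂) 2 - (q • (![1, 0, 0] : Fin 3 → L)) 2 = (gi *ᵥ z₂) 2 := by
        simp
      rw [this]; exact hp2'
  · have h7 : w₂ - q * c⁻¹ * w₁ = -(q * (V - W)) := by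
      rw [hw1', hw2']
      field_simp
      ring
    rw [h7]
    exact P_neg (P_mul uq.2.1 hd)

end Pool.AVS
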